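import Mathlib

/-!
# Unique codings on fat Sierpinski gaskets: no local constancy on `[golden ratio, 2)`

For `β ∈ [φ, 2)` take the greedy expansion `(α_i)` of `1` in base `β`, write `B` where
`α_i = 1`, fill the remaining places alternately with `C` and `A`, and put the letter `A` in
front.  This sequence has a second coding in base `β`, and it is a unique coding in every base
`β' ∈ (β, 2)`.
-/

namespace Pool.Agent.Results.MP_c4d56e_an.NotLocallyConstant

open Set MeasureTheory Filter Topology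

/-- The digit set `{A, B, C}`. -/
inductive Dig
  | A | B | C
  deriving DecidableEq

/-- `A = (0,0)`, `B = (1,0)`, `C = (0,1)`. -/
def vec : Dig → ℝ × ℝ
  | Dig.A => (0, 0)
  | Dig.B => (1, 0)
  | Dig.C => (0, 1)

/-- `π_β((d_i)) = ∑_{i ≥ 1} d_i / β^i`, where the digit `d_{i+1}` is written `d i`. -/
noncomputable def proj (β : ℝ) (d : ℕ → Dig) : ℝ × ℝ :=
  ∑' i : ℕ, (β ^ (i + 1))⁻¹ • vec (d i)

/-- The fat Sierpinski gasket `S_β`. -/
def gasket (β : ℝ) : Set (ℝ × ℝ) := Set.range (proj β)

/-- `U_β`: the points of `S_β` with exactly one coding. -/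
def U (β : ℝ) : Set (ℝ × ℝ) := {x | x ∈ gasket β ∧ ∃! d : ℕ → Dig, proj β d = x}

/-- The symbolic set `π_β⁻¹(U_β)` of unique codings. -/
def Usym (β : ℝ) : Set (ℕ → Dig) := proj β ⁻¹' U β

/-- `β ↦ Usym β` is locally constant at `β`. -/
def LocConstAt (β : ℝ) : Prop :=
  ∃ ε : ℝ, 0 < ε ∧ ∀ β' ∈ Set.Ioo (1 : ℝ) 2, |β' - β| < ε → Usym β' = Usym β

/-! ### Sums `∑ c_i β^{-(i+1)}` -/

/-- `∑_{i ≥ 0} c_i β^{-(i+1)}`. -/
noncomputable def S (β : ℝ) (c : ℕ → ℝ) : ℝ := ∑' i : ℕ, (β ^ (i + 1))⁻¹ * c i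

theorem summable_pow {β : ℝ} (hβ : 1 < β) : Summable (fun i : ℕ => (β ^ (i + 1))⁻¹) := by
  have h0 : 0 < β := by linarith
  have h : Summable (fun i : ℕ => (β⁻¹) ^ i * β⁻¹) :=
    (summable_geometric_of_lt_one (by positivity) (inv_lt_one_of_one_lt₀ hβ)).mul_right _
  refine h.congr (fun i => ?_)
  rw [pow_succ, mul_inv, inv_pow]

theorem summable_S {β : ℝ} (hβ : 1 < β) {c : ℕ → ℝ} (h0 : ∀ i, 0 ≤ c i) (h1 : ∀ i, c i ≤ 1) :
    Summable (fun i : ℕ => (β ^ (i + 1))⁻¹ * c i) := by
  have hb : 0 < β := by linarith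
  refine Summable.of_nonneg_of_le (fun i => mul_nonneg (by positivity) (h0 i)) (fun i => ?_)
    (summable_pow hβ)
  exact mul_le_of_le_one_right (by positivity) (h1 i)

theorem S_nonneg {β : ℝ} (hβ : 1 < β) {c : ℕ → ℝ} (h0 : ∀ i, 0 ≤ c i) : 0 ≤ S β c := by
  have hb : 0 < β := by linarith
  exact tsum_nonneg (fun i => mul_nonneg (by positivity) (h0 i))

theorem S_shift {β : ℝ} (hβ : 1 < β) {c : ℕ → ℝ} (h0 : ∀ i, 0 ≤ c i) (h1 : ∀ i, c i ≤ 1) :
    β * S β c = c 0 + S β (fun i => c (i + 1)) := by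
  have hb : 0 < β := by linarith
  have e := (summable_S hβ h0 h1).tsum_eq_zero_add
  unfold S
  rw [e, mul_add, ← tsum_mul_left]
  congr 1
  · simp
    field_simp
  · refine tsum_congr (fun i => ?_)
    rw [pow_succ β (i + 1)]
    field_simp

theorem S_one {β : ℝ} (hβ : 1 < β) : S β (fun _ => 1) = 1 / (β - 1) := by
  have h := S_shift hβ (c := fun _ => (1 : ℝ)) (fun _ => zero_le_one) (fun _ => le_refl _)
  have h2 : (β - 1) * S β (fun _ => 1) = 1 := by linarith
  have h3 : β - 1 ≠ 0 := by linarith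
  field_simp
  linarith

theorem S_antitone {β β' : ℝ} (hβ : 1 < β) (hb : β ≤ β') {c : ℕ → ℝ} (h0 : ∀ i, 0 ≤ c i)
    (h1 : ∀ i, c i ≤ 1) : S β' c ≤ S β c := by
  have hb0 : 0 < β := by linarith
  refine Summable.tsum_le_tsum (fun i => ?_) (summable_S (by linarith) h0 h1)
    (summable_S hβ h0 h1)
  refine mul_le_mul_of_nonneg_right ?_ (h0 i)
  exact inv_anti₀ (by positivity) (pow_le_pow_left₀ hb0.le hb _)

/-- A `0`-`1` sequence without two adjacent ones has small sum in bases above the golden ratio. -/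
theorem S_lt_one {β : ℝ} (hβ : 1 < β) (hg : β + 1 < β ^ 2) {c : ℕ → ℝ} (h0 : ∀ i, 0 ≤ c i)
    (h1 : ∀ i, c i ≤ 1) (h2 : ∀ i, c i + c (i + 1) ≤ 1) : S β c < 1 := by
  have hb : 0 < β := by linarith
  have hs := S_shift hβ h0 h1
  have hsum1 := summable_S hβ h0 h1
  have hsum2 := summable_S hβ (c := fun i => c (i + 1)) (fun i => h0 _) (fun i => h1 _)
  have hadd : S β c + S β (fun i => c (i + 1)) = S β (fun i => c i + c (i + 1)) := by
    unfold S
    rw [← hsum1.tsum_add hsum2]
    exact tsum_congr (fun i => by ring)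
  have hle : S β (fun i => c i + c (i + 1)) ≤ S β (fun _ => 1) := by
    have hp := summable_S hβ (c := fun _ => (1 : ℝ)) (fun _ => zero_le_one) (fun _ => le_refl _)
    refine Summable.tsum_le_tsum (fun i => ?_) ?_ hp
    · exact mul_le_mul_of_nonneg_left (h2 i) (by positivity)
    · exact summable_S hβ (fun i => add_nonneg (h0 _) (h0 _)) h2
  rw [S_one hβ] at hle
  have h3 : (1 + β) * S β c ≤ 1 + 1 / (β - 1) := by
    have := h1 0
    nlinarith
  have h4 : (0 : ℝ) < β - 1 := by linarith
  have h5 : 1 + 1 / (β - 1) < 1 + β := by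
    have : 1 / (β - 1) < β := by
      rw [div_lt_iff₀ h4]
      nlinarith
    linarith
  nlinarith

/-! ### Coordinates -/

/-- The indicator of the letter `L`. -/
def ind (L x : Dig) : ℝ := if x = L then 1 else 0

theorem ind_nonneg (L x : Dig) : 0 ≤ ind L x := by
  unfold ind; split_ifs <;> norm_num

theorem ind_le_one (L x : Dig) : ind L x ≤ 1 := by
  unfold ind; split_ifs <;> norm_num

/-- The coordinate of `π_β(d)` belonging to the letter `L`. -/
noncomputable def co (L : Dig) (β : ℝ) (d : ℕ → Dig) : ℝ := S β (fun i => ind L (d i))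

theorem proj_eq {β : ℝ} (hβ : 1 < β) (d : ℕ → Dig) :
    proj β d = (co Dig.B β d, co Dig.C β d) := by
  have hB := (summable_S hβ (c := fun i => ind Dig.B (d i)) (fun i => ind_nonneg _ _)
    (fun i => ind_le_one _ _)).hasSum
  have hC := (summable_S hβ (c := fun i => ind Dig.C (d i)) (fun i => ind_nonneg _ _)
    (fun i => ind_le_one _ _)).hasSum
  have h := hB.prodMk hC
  unfold proj co S
  rw [← h.tsum_eq]
  refine tsum_congr (fun i => ?_)
  rcases d i with _ | _ | _ <;> simp [vec, ind]

theorem co_sum {β : ℝ} (hβ : 1 < β) (d : ℕ → Dig) :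
    co Dig.A β d + co Dig.B β d + co Dig.C β d = 1 / (β - 1) := by
  have s := fun L => summable_S hβ (c := fun i => ind L (d i)) (fun i => ind_nonneg _ _)
    (fun i => ind_le_one _ _)
  rw [← S_one hβ]
  unfold co S
  rw [← (s Dig.A).tsum_add (s Dig.B), ← ((s Dig.A).add (s Dig.B)).tsum_add (s Dig.C)]
  refine tsum_congr (fun i => ?_)
  rcases d i with _ | _ | _ <;> simp [ind]

theorem co_eq_of_proj_eq {β : ℝ} (hβ : 1 < β) {d e : ℕ → Dig} (h : proj β e = proj β d)
    (L : Dig) : co L β e = co L β d := by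
  rw [proj_eq hβ, proj_eq hβ] at h
  have h1 := congrArg Prod.fst h
  have h2 := congrArg Prod.snd h
  simp only at h1 h2
  have h3 := co_sum hβ d
  have h4 := co_sum hβ e
  rcases L with _ | _ | _
  · linarith
  · exact h1
  · exact h2

theorem co_shift {β : ℝ} (hβ : 1 < β) (L : Dig) (d : ℕ → Dig) :
    β * co L β d = ind L (d 0) + co L β (fun i => d (i + 1)) :=
  S_shift hβ (c := fun i => ind L (d i)) (fun i => ind_nonneg _ _) (fun i => ind_le_one _ _)

theorem co_nonneg {β : ℝ} (hβ : 1 < β) (L : Dig) (d : ℕ → Dig) : 0 ≤ co L β d :=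
  S_nonneg hβ (fun i => ind_nonneg _ _)

/-- Sufficient condition for a unique coding. -/
theorem mem_Usym {β : ℝ} (hβ : 1 < β) {d : ℕ → Dig}
    (h : ∀ n, ∀ L, L ≠ d n → co L β (fun i => d (n + 1 + i)) < 1) : d ∈ Usym β := by
  refine ⟨⟨d, rfl⟩, d, rfl, ?_⟩
  intro e he
  have key : ∀ n, (∀ L, co L β (fun i => e (n + i)) = co L β (fun i => d (n + i))) →
      e n = d n := by
    intro n hn
    by_contra hne
    have h1 := co_shift hβ (e n) (fun i => e (n + i))
    have h2 := co_shift hβ (e n) (fun i => d (n + i))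
    have h3 := hn (e n)
    have h4 : ind (e n) (e (n + 0)) = 1 := by simp [ind]
    have h5 : ind (e n) (d (n + 0)) = 0 := by
      have : ¬ (d n = e n) := fun h => hne h.symm
      simp [ind, this]
    have h6 := co_nonneg hβ (e n) (fun i => e (n + (i + 1)))
    have h7 := h n (e n) hne
    have h8 : (fun i => d (n + (i + 1))) = (fun i => d (n + 1 + i)) := by
      funext i; congr 1; ring
    simp only [h4] at h1
    simp only [h5, h8] at h2
    rw [h3] at h1
    linarith
  have all : ∀ n, ∀ L, co L β (fun i => e (n + i)) = co L β (fun i => d (n + i)) := by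
    intro n
    induction n with
    | zero =>
      intro L
      simpa using co_eq_of_proj_eq hβ he L
    | succ n ih =>
      intro L
      have hn := key n ih
      have h1 := co_shift hβ L (fun i => e (n + i))
      have h2 := co_shift hβ L (fun i => d (n + i))
      have h8 : ∀ f : ℕ → Dig, (fun i => f (n + (i + 1))) = (fun i => f (n + 1 + i)) := by
        intro f; funext i; congr 1; ring
      simp only [h8, Nat.add_zero, hn] at h1 h2
      have h3 := ih L
      rw [h3] at h1
      linarith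
  funext n
  exact key n (all n)

/-! ### The greedy expansion of `1` -/

/-- The greedy remainders of `1` in base `β`. -/
noncomputable def r (β : ℝ) : ℕ → ℝ
  | 0 => 1
  | n + 1 => β * r β n - (if 1 ≤ β * r β n then 1 else 0)

/-- The number of zero digits among the first `n` greedy digits. -/
noncomputable def z (β : ℝ) : ℕ → ℕ
  | 0 => 0
  | n + 1 => z β n + (if 1 ≤ β * r β n then 0 else 1)

/-- The sequence: `A`, then `B` where the greedy digit of `1` is `1`, and alternately `C` and `A`
in the other places. -/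
noncomputable def dd (β : ℝ) : ℕ → Dig
  | 0 => Dig.A
  | n + 1 => if 1 ≤ β * r β n then Dig.B else if Even (z β n) then Dig.C else Dig.A

/-- The second coding in base `β`. -/
noncomputable def ee (β : ℝ) : ℕ → Dig
  | 0 => Dig.B
  | n + 1 => if dd β (n + 1) = Dig.C then Dig.C else Dig.A

theorem r_bounds {β : ℝ} (hβ : 1 < β) (h2 : β < 2) (n : ℕ) :
    0 ≤ r β n ∧ r β n ≤ 1 ∧ r β (n + 1) < 1 := by
  induction n with
  | zero =>
    refine ⟨by simp [r], by simp [r], ?_⟩
    have : (1 : ℝ) ≤ β := hβ.le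
    simp [r, this]
    linarith
  | succ n ih =>
    obtain ⟨i0, i1, i2⟩ := ih
    have a0 : 0 ≤ r β (n + 1) := by
      rw [r]
      split_ifs with h
      · linarith
      · nlinarith
    refine ⟨a0, i2.le, ?_⟩
    rw [r]
    split_ifs with h
    · nlinarith
    · linarith

theorem greedy_partial {β : ℝ} (hβ : 1 < β) (n N : ℕ) :
    ∑ i ∈ Finset.range N, (β ^ (i + 1))⁻¹ * ind Dig.B (dd β (n + i + 1))
      = r β n - (β ^ N)⁻¹ * r β (n + N) := by
  have hb : 0 < β := by linarith
  induction N with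
  | zero => simp
  | succ N ih =>
    rw [Finset.sum_range_succ, ih]
    have h1 : r β (n + (N + 1)) = β * r β (n + N) - ind Dig.B (dd β (n + N + 1)) := by
      rw [← Nat.add_assoc, r]
      congr 1
      by_cases h : 1 ≤ β * r β (n + N)
      · simp [dd, ind, h]
      · by_cases hz : Even (z β (n + N))
        · simp [dd, ind, h, hz]
        · simp [dd, ind, h, hz]
    rw [h1, pow_succ]
    field_simp
    ring

theorem greedy_sum {β : ℝ} (hβ : 1 < β) (h2 : β < 2) (n : ℕ) :
    co Dig.B β (fun i => dd β (n + i + 1)) = r β n := by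
  have hs := summable_S hβ (c := fun i => ind Dig.B (dd β (n + i + 1)))
    (fun i => ind_nonneg _ _) (fun i => ind_le_one _ _)
  have t1 := hs.hasSum.tendsto_sum_nat
  have t2 : Tendsto (fun N : ℕ => r β n - (β ^ N)⁻¹ * r β (n + N)) atTop (𝓝 (r β n)) := by
    have t3 : Tendsto (fun N : ℕ => (β ^ N)⁻¹ * r β (n + N)) atTop (𝓝 0) := by
      have t4 : Tendsto (fun N : ℕ => (β ^ N)⁻¹) atTop (𝓝 0) :=
        tendsto_inv_atTop_zero.comp (tendsto_pow_atTop_atTop_of_one_lt hβ)
      refine squeeze_zero (fun N => ?_) (fun N => ?_) t4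
      · exact mul_nonneg (by positivity) (r_bounds hβ h2 _).1
      · exact mul_le_of_le_one_right (by positivity) (r_bounds hβ h2 _).2.1
    simpa using tendsto_const_nhds.sub t3
  have t1' : Tendsto (fun N : ℕ => r β n - (β ^ N)⁻¹ * r β (n + N)) atTop
      (𝓝 (co Dig.B β (fun i => dd β (n + i + 1)))) := by
    refine t1.congr (fun N => ?_)
    exact greedy_partial hβ n N
  exact tendsto_nhds_unique t1' t2

/-- Letters `A` and `C` are never repeated immediately. -/
theorem no_adjacent {β : ℝ} (hβ : 1 < β) (L : Dig) (hL : L ≠ Dig.B) (n : ℕ) :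
    ind L (dd β n) + ind L (dd β (n + 1)) ≤ 1 := by
  rcases n with _ | n
  · have : (1 : ℝ) ≤ β * r β 0 := by simp [r]; linarith
    have h1 : dd β 1 = Dig.B := by simp [dd, this]
    have h2 : ind L (dd β 1) = 0 := by
      rw [h1]; simp [ind, hL.symm]
    rw [zero_add, h2]
    have := ind_le_one L (dd β 0)
    linarith
  · by_cases h : 1 ≤ β * r β n
    · have h1 : dd β (n + 1) = Dig.B := by simp [dd, h]
      have h2 : ind L (dd β (n + 1)) = 0 := by
        rw [h1]; simp [ind, hL.symm]
      rw [h2]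
      have := ind_le_one L (dd β (n + 1 + 1))
      linarith
    · by_cases h' : 1 ≤ β * r β (n + 1)
      · have h1 : dd β (n + 1 + 1) = Dig.B := by simp [dd, h']
        have h2 : ind L (dd β (n + 1 + 1)) = 0 := by
          rw [h1]; simp [ind, hL.symm]
        rw [h2]
        have := ind_le_one L (dd β (n + 1))
        linarith
      · have hz : z β (n + 1) = z β n + 1 := by simp [z, h]
        by_cases he : Even (z β n)
        · have he' : ¬ Even (z β (n + 1)) := by
            rw [hz, Nat.even_add_one]; simpa using he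
          have h1 : dd β (n + 1) = Dig.C := by simp [dd, h, he]
          have h2 : dd β (n + 1 + 1) = Dig.A := by
            rw [dd]; simp [h', he']
          rw [h1, h2]
          rcases L with _ | _ | _ <;> simp [ind]
        · have he' : Even (z β (n + 1)) := by
            rw [hz, Nat.even_add_one]; exact he
          have h1 : dd β (n + 1) = Dig.A := by simp [dd, h, he]
          have h2 : dd β (n + 1 + 1) = Dig.C := by
            rw [dd]; simp [h', he']
          rw [h1, h2]
          rcases L with _ | _ | _ <;> simp [ind]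

theorem dd_mem {β β' : ℝ} (hβ : 1 < β) (hb : β < β') (h2 : β' < 2) (hg : β' + 1 < β' ^ 2) :
    dd β ∈ Usym β' := by
  have hβ' : 1 < β' := by linarith
  refine mem_Usym hβ' ?_
  intro n L hL
  by_cases hB : L = Dig.B
  · subst hB
    have hsh : (fun i => dd β (n + 1 + i)) = (fun i => dd β (n + i + 1)) := by
      funext i; congr 1; ring
    rw [hsh]
    have hle : co Dig.B β' (fun i => dd β (n + i + 1)) ≤ co Dig.B β (fun i => dd β (n + i + 1)) :=
      S_antitone hβ hb.le (fun i => ind_nonneg _ _) (fun i => ind_le_one _ _)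
    rcases n with _ | n
    · -- strict by the first digit
      have e1 := co_shift hβ Dig.B (fun i => dd β (0 + i + 1))
      have e2 := co_shift hβ' Dig.B (fun i => dd β (0 + i + 1))
      have hle2 : co Dig.B β' (fun i => dd β (0 + (i + 1) + 1)) ≤
          co Dig.B β (fun i => dd β (0 + (i + 1) + 1)) :=
        S_antitone hβ hb.le (fun i => ind_nonneg _ _) (fun i => ind_le_one _ _)
      have g := greedy_sum hβ (by linarith) 0
      have hr : r β 0 = 1 := rfl
      rw [g, hr] at e1
      rw [g, hr] at hle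
      by_contra hcon
      have hge : 1 ≤ co Dig.B β' (fun i => dd β (0 + i + 1)) := not_lt.mp hcon
      nlinarith
    · have g := greedy_sum hβ (by linarith) (n + 1)
      have hr := (r_bounds hβ (by linarith) n).2.2
      linarith
  · exact S_lt_one hβ' hg (fun i => ind_nonneg _ _) (fun i => ind_le_one _ _)
      (fun i => no_adjacent hβ L hB (n + 1 + i))

theorem dd_not_mem {β : ℝ} (hβ : 1 < β) (h2 : β < 2) : dd β ∉ Usym β := by
  rintro ⟨-, d0, -, huniq⟩
  have hb : 0 < β := by linarith
  have hB : co Dig.B β (ee β) = co Dig.B β (dd β) := by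
    have e1 := co_shift hβ Dig.B (ee β)
    have e2 := co_shift hβ Dig.B (dd β)
    have g := greedy_sum hβ h2 0
    have hr : r β 0 = 1 := rfl
    have e3 : ind Dig.B (ee β 0) = 1 := by simp [ind, ee]
    have e4 : ind Dig.B (dd β 0) = 0 := by simp [ind, dd]
    have e5 : co Dig.B β (fun i => ee β (i + 1)) = 0 := by
      unfold co S
      have : ∀ i, (β ^ (i + 1))⁻¹ * ind Dig.B (ee β (i + 1)) = 0 := by
        intro i
        have : ind Dig.B (ee β (i + 1)) = 0 := by
          rw [ee]; split_ifs <;> simp [ind]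
        rw [this, mul_zero]
      simp [this]
    have e6 : co Dig.B β (fun i => dd β (i + 1)) = 1 := by
      rw [hr] at g
      simpa using g
    rw [e3, e5] at e1
    rw [e4, e6] at e2
    have : β * co Dig.B β (ee β) = β * co Dig.B β (dd β) := by linarith
    exact mul_left_cancel₀ hb.ne' this
  have hC : co Dig.C β (ee β) = co Dig.C β (dd β) := by
    unfold co
    congr 1
    funext i
    rcases i with _ | i
    · simp [ind, ee, dd]
    · rw [ee]
      by_cases h : dd β (i + 1) = Dig.C
      · simp [h, ind]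
      · simp [h, ind]
  have hp : proj β (ee β) = proj β (dd β) := by
    rw [proj_eq hβ, proj_eq hβ, hB, hC]
  have h1 := huniq (ee β) hp
  have h2 := huniq (dd β) rfl
  have h3 : ee β 0 = dd β 0 := by rw [h1, h2]
  simp [ee, dd] at h3

theorem separation {β β' : ℝ} (h1 : Real.goldenRatio ≤ β) (h2 : β < β') (h3 : β' < 2) :
    ∃ d : ℕ → Dig, d ∈ Usym β' ∧ d ∉ Usym β := by
  have hg1 : 1 < Real.goldenRatio := Real.one_lt_goldenRatio
  have hsq : Real.goldenRatio ^ 2 = Real.goldenRatio + 1 := Real.goldenRatio_sq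
  have hβ : 1 < β := by linarith
  refine ⟨dd β, dd_mem hβ h2 h3 ?_, dd_not_mem hβ (by linarith)⟩
  have : Real.goldenRatio < β' := by linarith
  nlinarith

theorem not_locConst {β : ℝ} (h1 : Real.goldenRatio ≤ β) (h2 : β < 2) : ¬ LocConstAt β := by
  rintro ⟨ε, hε, h⟩
  have hg1 : 1 < Real.goldenRatio := Real.one_lt_goldenRatio
  obtain ⟨β', hb1, hb2⟩ := exists_between (show β < min 2 (β + ε) by
    apply lt_min h2; linarith)
  have h3 : β' < 2 := lt_of_lt_of_le hb2 (min_le_left _ _)
  have h4 : β' < β + ε := lt_of_lt_of_le hb2 (min_le_right _ _)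
  have he := h β' ⟨by linarith, h3⟩ (by rw [abs_lt]; constructor <;> linarith)
  obtain ⟨d, hd1, hd2⟩ := separation h1 hb1 h3
  rw [he] at hd1
  exact hd2 hd1

/-- **Q1 is disproved.**  For all `φ ≤ β < β' < 2` (with `φ` the golden ratio) some sequence is a
unique coding in base `β'` but not in base `β`.  Hence `β ↦ Usym β` is locally constant at no
`β ∈ [φ, 2)`, the set of `β ∈ (1,2)` without local constancy has measure at least `2 - φ > 0`, and
local constancy at Lebesgue almost every `β ∈ (1,2)` fails. -/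
theorem result :
    (∀ β β' : ℝ, Real.goldenRatio ≤ β → β < β' → β' < 2 →
      ∃ d : ℕ → Dig, d ∈ Usym β' ∧ d ∉ Usym β) ∧
    (∀ β ∈ Set.Ico Real.goldenRatio 2, ¬ LocConstAt β) ∧
    (0 < ENNReal.ofReal (2 - Real.goldenRatio) ∧
      ENNReal.ofReal (2 - Real.goldenRatio) ≤
        volume {β : ℝ | β ∈ Set.Ioo (1 : ℝ) 2 ∧ ¬ LocConstAt β}) ∧
    ¬ (∀ᵐ β ∂(volume.restrict (Set.Ioo (1 : ℝ) 2)), LocConstAt β) := by
  have hg1 : 1 < Real.goldenRatio := Real.one_lt_goldenRatio
  have hg2 : Real.goldenRatio < 2 := Real.goldenRatio_lt_two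
  have hpos : 0 < ENNReal.ofReal (2 - Real.goldenRatio) := by
    rw [ENNReal.ofReal_pos]; linarith
  have hsub : Set.Ico Real.goldenRatio 2 ⊆ {β : ℝ | β ∈ Set.Ioo (1 : ℝ) 2 ∧ ¬ LocConstAt β} := by
    intro β hβ
    exact ⟨⟨by linarith [hβ.1], hβ.2⟩, not_locConst hβ.1 hβ.2⟩
  have hle : ENNReal.ofReal (2 - Real.goldenRatio) ≤
      volume {β : ℝ | β ∈ Set.Ioo (1 : ℝ) 2 ∧ ¬ LocConstAt β} := by
    rw [← Real.volume_Ico]
    exact measure_mono hsub
  refine ⟨fun β β' h1 h2 h3 => separation h1 h2 h3, fun β hβ => not_locConst hβ.1 hβ.2,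
    ⟨hpos, hle⟩, ?_⟩
  intro hae
  rw [ae_restrict_iff' measurableSet_Ioo] at hae
  have h0 : volume {β : ℝ | β ∈ Set.Ioo (1 : ℝ) 2 ∧ ¬ LocConstAt β} = 0 := by
    have := ae_iff.mp hae
    convert this using 2
    ext β
    simp only [mem_setOf_eq, Classical.not_imp]
  rw [h0] at hle
  exact absurd hle (not_le.mpr hpos)

end Pool.Agent.Results.MP_c4d56e_an.NotLocallyConstant
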